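import Pool.Agent.Lib.MP_6bc78b_nt.MS.QZ.Iface

/-! Project MS, Part QZ, module DEC: the gain from the high moments. -/

set_option autoImplicit false

namespace Pool.Agent.Lib.MP_6bc78b_nt.MS.QZ.H97

open Pool.Agent.Lib.MP_6bc78b_nt.MS Pool.Agent.Lib.MP_6bc78b_nt.MS.P1
open Pool.Agent.Lib.MP_6bc78b_nt.MS.QZ

/-- `R_j^(2r) (δ^(3/2))^r = 1`. -/
theorem rj_pow (d : ℝ) (hd : 0 < d) (r : ℕ) :
    (d ^ (-(3 / 4) : ℝ)) ^ (2 * r) * (d ^ (3 / 2 : ℝ)) ^ r = 1 := by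
  rw [pow_mul, ← mul_pow]
  have h1 : (d ^ (-(3 / 4) : ℝ)) ^ 2 * d ^ (3 / 2 : ℝ) = 1 := by
    rw [← Real.rpow_natCast (d ^ (-(3 / 4) : ℝ)) 2, ← Real.rpow_mul hd.le,
      ← Real.rpow_add hd]
    norm_num
  rw [h1, one_pow]

theorem fact_le (r : ℕ) : (r.factorial : ℝ) ≤ (r : ℝ) ^ r := by
  exact_mod_cast Nat.factorial_le_pow r

/-- The middle scales. -/
theorem mid (d : ℝ) (hd : 0 < d) (hd1 : d ≤ 1 / 10 ^ 12) (r : ℕ) (hr : r = ⌊1 / (20 * d)⌋₊) :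
    4 ^ r * (r.factorial : ℝ) * (1 / d) ^ 2 ≤
      10 ^ 24 * d * (d ^ (-(3 / 4) : ℝ)) ^ (2 * r) := by
  have hpos : (0 : ℝ) < d ^ (3 / 2 : ℝ) := Real.rpow_pos_of_pos hd _
  have hX : (0 : ℝ) < (d ^ (3 / 2 : ℝ)) ^ r := pow_pos hpos _
  have hinv := rj_pow d hd r
  set X := (d ^ (3 / 2 : ℝ)) ^ r with hXdef
  set Y := (d ^ (-(3 / 4) : ℝ)) ^ (2 * r) with hYdef
  have hrle : (r : ℝ) ≤ 1 / (20 * d) := by
    rw [hr]; exact Nat.floor_le (by positivity)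
  have hr6 : 6 ≤ r := by
    rw [hr]
    apply Nat.le_floor
    rw [le_div_iff₀ (by positivity)]
    push_cast
    have : d ≤ 1 / 10 ^ 12 := hd1
    norm_num at this ⊢
    linarith
  -- key bound
  have hs : (0 : ℝ) < d ^ (1 / 2 : ℝ) := Real.rpow_pos_of_pos hd _
  have hs2 : d ^ (3 / 2 : ℝ) = d * d ^ (1 / 2 : ℝ) := by
    have : (3 / 2 : ℝ) = 1 + 1 / 2 := by norm_num
    rw [this, Real.rpow_add hd, Real.rpow_one]
  have hsq : (d ^ (1 / 2 : ℝ)) ^ 2 = d := by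
    rw [← Real.rpow_natCast (d ^ (1 / 2 : ℝ)) 2, ← Real.rpow_mul hd.le]
    norm_num
  have hd1' : d ≤ 1 := le_trans hd1 (by norm_num)
  have hs1 : d ^ (1 / 2 : ℝ) ≤ 1 := Real.rpow_le_one hd.le hd1' (by norm_num)
  have hkey : 4 ^ r * (r.factorial : ℝ) * X ≤ d ^ 3 := by
    have h1 : 4 ^ r * (r.factorial : ℝ) * X ≤ (4 * (r : ℝ) * d ^ (3 / 2 : ℝ)) ^ r := by
      rw [mul_pow, mul_pow]
      have := fact_le r
      gcongr
    have h2 : 4 * (r : ℝ) * d ^ (3 / 2 : ℝ) ≤ d ^ (1 / 2 : ℝ) := by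
      rw [hs2]
      have h3 : (r : ℝ) * d ≤ 1 / 20 := by
        have h4 : (r : ℝ) * d ≤ 1 / (20 * d) * d := mul_le_mul_of_nonneg_right hrle hd.le
        have h5 : 1 / (20 * d) * d = 1 / 20 := by field_simp
        linarith
      have h6 : 4 * (r : ℝ) * (d * d ^ (1 / 2 : ℝ)) = (4 * ((r : ℝ) * d)) * d ^ (1 / 2 : ℝ) := by
        ring
      rw [h6]
      have h7 : 4 * ((r : ℝ) * d) ≤ 1 := by linarith
      calc (4 * ((r : ℝ) * d)) * d ^ (1 / 2 : ℝ) ≤ 1 * d ^ (1 / 2 : ℝ) :=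
            mul_le_mul_of_nonneg_right h7 hs.le
        _ = d ^ (1 / 2 : ℝ) := one_mul _
    have h0 : (0 : ℝ) ≤ 4 * (r : ℝ) * d ^ (3 / 2 : ℝ) := by positivity
    calc 4 ^ r * (r.factorial : ℝ) * X ≤ (4 * (r : ℝ) * d ^ (3 / 2 : ℝ)) ^ r := h1
      _ ≤ (d ^ (1 / 2 : ℝ)) ^ r := pow_le_pow_left₀ h0 h2 r
      _ ≤ (d ^ (1 / 2 : ℝ)) ^ 6 := pow_le_pow_of_le_one hs.le hs1 hr6
      _ = ((d ^ (1 / 2 : ℝ)) ^ 2) ^ 3 := by rw [← pow_mul]
      _ = d ^ 3 := by rw [hsq]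
  -- conclude
  have hY : Y = 1 / X := by
    rw [eq_div_iff hX.ne']
    exact hinv
  rw [hY]
  have h8 : 4 ^ r * (r.factorial : ℝ) ≤ d ^ 3 / X := by
    rw [le_div_iff₀ hX]
    exact hkey
  have h9 : 4 ^ r * (r.factorial : ℝ) * (1 / d) ^ 2 ≤ d ^ 3 / X * (1 / d) ^ 2 :=
    mul_le_mul_of_nonneg_right h8 (by positivity)
  have h10 : d ^ 3 / X * (1 / d) ^ 2 = d * (1 / X) := by
    field_simp
  have h11 : (0 : ℝ) ≤ d * (1 / X) := by positivity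
  calc 4 ^ r * (r.factorial : ℝ) * (1 / d) ^ 2 ≤ d * (1 / X) := by rw [← h10]; exact h9
    _ ≤ 10 ^ 24 * (d * (1 / X)) := by
        have : (1 : ℝ) ≤ 10 ^ 24 := by norm_num
        nlinarith
    _ = 10 ^ 24 * d * (1 / X) := by ring

/-- The first scale. -/
theorem low (l C0 : ℝ) (hC0 : 0 < C0) (hl : 10 ^ 7 ≤ l) (hlC : C0 ≤ l) (d : ℝ)
    (hd : d = 1 / l ^ 2) (r : ℕ) (hr : r = ⌊1 / (20 * d)⌋₊) :
    Real.exp (2 * (l + C0)) * (2 ^ r * (r.factorial : ℝ) * (l + C0) ^ r) * (1 / d) ^ 2 ≤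
      10 ^ 24 * d * (d ^ (-(3 / 4) : ℝ)) ^ (2 * r) := by
  have hlpos : (0 : ℝ) < l := by linarith [show (0 : ℝ) < 10 ^ 7 by norm_num]
  have hdpos : 0 < d := by rw [hd]; positivity
  have hpos : (0 : ℝ) < d ^ (3 / 2 : ℝ) := Real.rpow_pos_of_pos hdpos _
  have hinv := rj_pow d hdpos r
  have hd32 : d ^ (3 / 2 : ℝ) = 1 / l ^ 3 := by
    rw [hd, one_div, Real.inv_rpow (by positivity), ← Real.rpow_natCast l 2,
      ← Real.rpow_mul hlpos.le, one_div]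
    norm_num
  have hY : (d ^ (-(3 / 4) : ℝ)) ^ (2 * r) = (l ^ 3) ^ r := by
    rw [hd32] at hinv
    have h1 : ((1 : ℝ) / l ^ 3) ^ r = 1 / (l ^ 3) ^ r := by rw [div_pow, one_pow]
    rw [h1] at hinv
    have h2 : (0 : ℝ) < (l ^ 3) ^ r := by positivity
    field_simp at hinv
    exact hinv
  rw [hY]
  have hdinv : 1 / (20 * d) = l ^ 2 / 20 := by
    rw [hd]; field_simp
  rw [hdinv] at hr
  have hrle : (r : ℝ) ≤ l ^ 2 / 20 := by
    rw [hr]; exact Nat.floor_le (by positivity)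
  have hrge : l ^ 2 / 20 - 1 ≤ (r : ℝ) := by
    rw [hr]
    have := Nat.lt_floor_add_one (l ^ 2 / 20)
    linarith
  have h1d : (1 / d) ^ 2 = l ^ 4 := by
    rw [hd]; field_simp
  rw [h1d]
  -- core bound
  have hcore : 2 ^ r * (r.factorial : ℝ) * (l + C0) ^ r ≤ (l ^ 3 / 5) ^ r := by
    have h1 : 2 ^ r * (r.factorial : ℝ) * (l + C0) ^ r ≤ 2 ^ r * (r : ℝ) ^ r * (2 * l) ^ r := by
      have := fact_le r
      have h2 : l + C0 ≤ 2 * l := by linarith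
      gcongr
    have h3 : 2 ^ r * (r : ℝ) ^ r * (2 * l) ^ r = (2 * (r : ℝ) * (2 * l)) ^ r := by
      rw [← mul_pow, ← mul_pow]
    have h4 : 2 * (r : ℝ) * (2 * l) ≤ l ^ 3 / 5 := by
      have h5 : (r : ℝ) * l ≤ l ^ 2 / 20 * l := mul_le_mul_of_nonneg_right hrle hlpos.le
      nlinarith
    rw [h3] at h1
    exact h1.trans (pow_le_pow_left₀ (by positivity) h4 r)
  -- 5^(-r) ≤ exp(-r)
  have h5 : Real.exp (r : ℝ) ≤ 5 ^ r := by
    have h6 : Real.exp (r : ℝ) = Real.exp 1 ^ r := by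
      rw [← Real.exp_nat_mul, mul_one]
    rw [h6]
    apply pow_le_pow_left₀ (Real.exp_pos _).le
    have := Real.exp_one_lt_d9
    linarith
  have hle : l ^ 6 ≤ Real.exp (6 * l) := by
    have h7 : l ≤ Real.exp l := by
      have := Real.add_one_le_exp l
      linarith
    have h8 : Real.exp (6 * l) = Real.exp l ^ 6 := by
      rw [← Real.exp_nat_mul]; norm_num
    rw [h8]
    exact pow_le_pow_left₀ hlpos.le h7 6
  have hexp : Real.exp (2 * (l + C0)) * l ^ 6 ≤ 10 ^ 24 * 5 ^ r := by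
    have h9 : Real.exp (2 * (l + C0)) * l ^ 6 ≤
        Real.exp (2 * (l + C0)) * Real.exp (6 * l) :=
      mul_le_mul_of_nonneg_left hle (Real.exp_pos _).le
    have h10 : Real.exp (2 * (l + C0)) * Real.exp (6 * l) ≤ Real.exp 1 * Real.exp (r : ℝ) := by
      rw [← Real.exp_add, ← Real.exp_add]
      apply Real.exp_le_exp.mpr
      have : 10 * l ≤ l ^ 2 / 20 := by nlinarith
      linarith
    have h11 : Real.exp 1 * Real.exp (r : ℝ) ≤ 10 ^ 24 * 5 ^ r := by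
      have h12 : Real.exp 1 ≤ 10 ^ 24 := by
        have := Real.exp_one_lt_d9
        linarith [show (3 : ℝ) ≤ 10 ^ 24 by norm_num]
      have := Real.exp_pos (r : ℝ)
      gcongr
    linarith
  -- conclude
  have hl3 : (0 : ℝ) < (l ^ 3) ^ r := by positivity
  have hsplit : (l ^ 3 / 5) ^ r = (l ^ 3) ^ r / 5 ^ r := by rw [div_pow]
  rw [hsplit] at hcore
  have h5r : (0 : ℝ) < 5 ^ r := by positivity
  have hfin : Real.exp (2 * (l + C0)) * ((l ^ 3) ^ r / 5 ^ r) * l ^ 4 ≤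
      10 ^ 24 * d * (l ^ 3) ^ r := by
    have h13 : Real.exp (2 * (l + C0)) * ((l ^ 3) ^ r / 5 ^ r) * l ^ 4 =
        (Real.exp (2 * (l + C0)) * l ^ 6) * (d * (l ^ 3) ^ r / 5 ^ r) := by
      rw [hd]; field_simp
    rw [h13]
    have h14 : (0 : ℝ) ≤ d * (l ^ 3) ^ r / 5 ^ r := by positivity
    calc (Real.exp (2 * (l + C0)) * l ^ 6) * (d * (l ^ 3) ^ r / 5 ^ r)
        ≤ (10 ^ 24 * 5 ^ r) * (d * (l ^ 3) ^ r / 5 ^ r) :=
          mul_le_mul_of_nonneg_right hexp h14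
      _ = 10 ^ 24 * d * (l ^ 3) ^ r := by field_simp
  calc Real.exp (2 * (l + C0)) * (2 ^ r * (r.factorial : ℝ) * (l + C0) ^ r) * l ^ 4
      ≤ Real.exp (2 * (l + C0)) * ((l ^ 3) ^ r / 5 ^ r) * l ^ 4 := by gcongr
    _ ≤ 10 ^ 24 * d * (l ^ 3) ^ r := hfin

/-- Module DEC. -/
theorem dec (h1 : SclStatement) : DecStatement := by
  intro C0 hC0
  obtain ⟨T1, hT1, hS⟩ := h1
  refine ⟨10 ^ 24, max T1 (Real.exp (Real.exp C0)), by norm_num, lt_max_of_lt_left hT1, ?_⟩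
  intro T hT
  have hTa : T1 ≤ T := (le_max_left _ _).trans hT
  have hTb : Real.exp (Real.exp C0) ≤ T := (le_max_right _ _).trans hT
  obtain ⟨hl, -, hdl, ⟨hJ1, -⟩, -, -, -, -⟩ := hS T hTa
  have hTpos : 0 < T := (Real.exp_pos _).trans_le hTb
  have hlC : C0 ≤ ll T := by
    unfold ll
    have h2 : Real.exp C0 ≤ Real.log T := by
      rw [Real.le_log_iff_exp_le hTpos]; exact hTb
    have h3 : 0 < Real.log T := (Real.exp_pos _).trans_le h2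
    rw [Real.le_log_iff_exp_le h3]; exact h2
  constructor
  · intro j _ hj
    rcases hj.lt_or_eq with hlt | heq
    · obtain ⟨hd0, hd1⟩ := hdl j hlt
      have := mid (dl T j) hd0 hd1 (rJ T j) rfl
      simp only [rj, wj, RJ, if_pos hlt]
      exact this
    · subst heq
      have hd0 : (0 : ℝ) < dl T (JJ T) := lt_of_lt_of_le (by norm_num) hJ1
      simp only [rj, wj, lt_irrefl, if_false, pow_zero, Nat.factorial_zero, Nat.cast_one, mul_one,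
        one_mul, mul_zero]
      have h4 : 1 / dl T (JJ T) ≤ 10 ^ 12 := by
        rw [div_le_iff₀ hd0]
        rw [div_le_iff₀ (by norm_num)] at hJ1
        linarith
      have h5 : (0 : ℝ) ≤ 1 / dl T (JJ T) := by positivity
      calc (1 / dl T (JJ T)) ^ 2 ≤ (10 ^ 12) ^ 2 := pow_le_pow_left₀ h5 h4 2
        _ ≤ 10 ^ 24 := by norm_num
  · have h0 : 0 < JJ T := by unfold JJ; omega
    have hd : dl T 0 = 1 / ll T ^ 2 := by
      unfold dl; simp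
    have := low (ll T) C0 hC0 hl hlC (dl T 0) hd (rJ T 0) rfl
    simp only [rj, wj, RJ, if_pos h0]
    exact this

end Pool.Agent.Lib.MP_6bc78b_nt.MS.QZ.H97
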